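import Mathlib
import Pool.Agent.U155.GC.E

/-!
# The golden partition conjecture: N-free posets, forests, good pairs, majority cycles, automorphisms

The golden partition conjecture holds for every finite poset which is not a chain and

1. whose cover graph (Hasse diagram) is a forest, or
2. which is N-free (there are no `a`, `b`, `c`, `d` such that `c` covers `a` and `b`, `d` covers `b`, and
   `a` is not below `d`; this includes all series-parallel posets), or
3. which has a good pair in the sense of Zaguia, or whose dual has one, or
4. in which the majority relation `P(a before b) > 1/2` has a cycle, or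
5. which has a nontrivial automorphism, or
6. which has an autonomous subset for which the conjecture holds.

Proof.  3: let `(a, b)` be a good pair: everything below `a` is below `b`, the elements above `b` and not
above `a` form a chain, and `P(a before b) ≤ 1/2`.  Let `y < z` be the two consecutive elements of the
chain which consists of `b` and these elements such that `P(a before y) ≤ 1/2 ≤ P(a before z)`.  The
exchange of the places of `a` and `y` shows that `P(y before a before z) ≤ P(a before y)`.  If
`P(a before y) + P(a before z) ≤ 1`, then one compares first `a, z` and then `a, y`; otherwise first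
`a, y` and then `a, z`.  4: there is a majority cycle of length three; one compares first the most
balanced pair of it.  5: there is a balanced pair or a majority cycle.  6: all linear extensions of an
autonomous subset have the same number of extensions.  1: a tree which is not a direct sum has two
elements with the same lower elements, or dually, whose sets of upper elements differ by chains; this
follows from the analysis of the tips of a tree in `ForestGap` of MP_33fb9b_co.  2: two elements with the
same lower elements whose sets of upper elements have the smallest possible union.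
-/

set_option autoImplicit false

namespace Pool.Agent.Results.MP_480c30_co.NFreeAndForests

/-- The number of linear extensions. -/
noncomputable def ext (α : Type) [Fintype α] [PartialOrder α] : ℕ :=
  {f : α ≃ Fin (Fintype.card α) | StrictMono (f : α → Fin (Fintype.card α))}.ncard

/-- The number of linear extensions in which `a` comes before `b`. -/
noncomputable def num {α : Type} [Fintype α] [PartialOrder α] (a b : α) : ℕ :=
  {f : α ≃ Fin (Fintype.card α) | StrictMono (f : α → Fin (Fintype.card α)) ∧ f a < f b}.ncard

/-- The conclusion of the golden partition conjecture for `α`, in the form of the frozen statement. -/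
def Golden (α : Type) [Fintype α] [PartialOrder α] : Prop :=
  ∃ a b : α, ¬ a ≤ b ∧ ¬ b ≤ a ∧
    ∀ u v : α, ((u = a ∧ v = b) ∨ (u = b ∧ v = a)) →
      ∃ c d : α, c ≠ d ∧
        ∀ w z : α, ((w = c ∧ z = d) ∨ (w = d ∧ z = c)) →
          {f : α ≃ Fin (Fintype.card α) |
              StrictMono (f : α → Fin (Fintype.card α)) ∧ f u < f v}.ncard
            + {f : α ≃ Fin (Fintype.card α) |
              StrictMono (f : α → Fin (Fintype.card α)) ∧ f u < f v ∧ f w < f z}.ncard
            ≤ {f : α ≃ Fin (Fintype.card α) |
              StrictMono (f : α → Fin (Fintype.card α))}.ncard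

lemma ext_eq (α : Type) [Fintype α] [PartialOrder α] :
    U155.GC.cnt α (Fintype.card α) (fun _ => True) =
      {f : α ≃ Fin (Fintype.card α) | StrictMono (f : α → Fin (Fintype.card α))}.ncard := by
  unfold U155.GC.cnt
  congr 1
  ext f
  exact and_iff_left trivial

lemma golden_iff (α : Type) [Fintype α] [PartialOrder α] :
    Golden α ↔ U155.GC.GPC α (Fintype.card α) := by
  unfold Golden U155.GC.GPC
  rw [ext_eq α]
  exact Iff.rfl

theorem result :
    -- the cover graph is a forest
    (∀ (α : Type) [Fintype α] [PartialOrder α], (∃ x y : α, ¬ x ≤ y ∧ ¬ y ≤ x) →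
      (SimpleGraph.hasse α).IsAcyclic → Golden α) ∧
    -- N-free posets
    (∀ (α : Type) [Fintype α] [PartialOrder α], (∃ x y : α, ¬ x ≤ y ∧ ¬ y ≤ x) →
      (∀ a b c d : α, a ⋖ c → b ⋖ c → b ⋖ d → a < d) → Golden α) ∧
    -- posets with a good pair
    (∀ (α : Type) [Fintype α] [PartialOrder α] (a b : α), a ≠ b → (∀ w, w < a → w < b) →
      (∀ w w', b < w → b < w' → ¬ a < w → ¬ a < w' → w ≤ w' ∨ w' ≤ w) →
      2 * num a b ≤ ext α → Golden α) ∧
    -- posets whose dual has a good pair
    (∀ (α : Type) [Fintype α] [PartialOrder α] (a b : α), a ≠ b → (∀ w, a < w → b < w) →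
      (∀ w w', w < b → w' < b → ¬ w < a → ¬ w' < a → w ≤ w' ∨ w' ≤ w) →
      2 * num b a ≤ ext α → Golden α) ∧
    -- posets with a majority cycle
    (∀ (α : Type) [Fintype α] [PartialOrder α] (x : α),
      Relation.TransGen (fun a b : α => ext α < 2 * num a b) x x → Golden α) ∧
    -- posets with a nontrivial automorphism
    (∀ (α : Type) [Fintype α] [PartialOrder α] (e : α ≃o α), e ≠ OrderIso.refl α → Golden α) ∧
    -- posets with an autonomous subset for which the conjecture holds
    (∀ (α : Type) [Fintype α] [PartialOrder α] (M : Set α) [Fintype M],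
      (∀ x ∈ M, ∀ y ∈ M, ∀ z, z ∉ M → (z ≤ x → z ≤ y) ∧ (x ≤ z → y ≤ z)) →
      Golden M → Golden α) := by
  refine ⟨fun α _ _ hxy hF => ?_, fun α _ _ hxy hN => ?_, fun α _ _ a b h1 h2 h3 h4 => ?_,
    fun α _ _ a b h1 h2 h3 h4 => ?_, fun α _ _ x hx => ?_, fun α _ _ e he => ?_,
    fun α _ _ M _ hM h => ?_⟩
  · rw [golden_iff]
    exact U155.GC.gpc_near (U155.GC.forest_near α (U155.FC.fside_of_acyclic hF) hxy)
  · rw [golden_iff]
    exact U155.GC.gpc_near (U155.GC.nfree_near α hN hxy)
  · rw [golden_iff]
    unfold ext num at h4
    rw [← ext_eq] at h4
    exact U155.GC.gpc_good h1 h2 h3 h4 (U155.GC.cnt_pos α)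
  · rw [golden_iff]
    unfold ext num at h4
    rw [← ext_eq] at h4
    exact U155.GC.gpc_good' h1 h2 h3 h4
  · rw [golden_iff]
    unfold ext num at hx
    rw [← ext_eq] at hx
    exact U155.GC.gpc_majority (U155.GC.cnt_pos α) hx
  · rw [golden_iff]
    exact U155.GC.gpc_automorphism e he (U155.GC.cnt_pos α)
  · rw [golden_iff] at h ⊢
    exact U155.GC.gpc_auto hM h

end Pool.Agent.Results.MP_480c30_co.NFreeAndForests
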